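import Pool.Agent.Helper49.LT.StB

/-!
# Project LT, module CHO: existence of a chord
-/

namespace Pool.Agent.Helper89.LT

open Helper49.LT Helper97.CB MeasureTheory Set Filter Metric

theorem cho_lip {f : (ℂ × ℂ) × (ℝ × ℝ) → ℝ} (hf : ContDiffAt ℝ 1 f 0) :
    ∃ L ρ : ℝ, 1 ≤ L ∧ 0 < ρ ∧ ∀ p ∈ ball (0 : (ℂ × ℂ) × (ℝ × ℝ)) ρ,
      ∀ q ∈ ball (0 : (ℂ × ℂ) × (ℝ × ℝ)) ρ, |f p - f q| ≤ L * ‖p - q‖ := by
  obtain ⟨M, t, ht, hM⟩ := hf.exists_lipschitzOnWith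
  obtain ⟨ρ, hρ, hb⟩ := Metric.mem_nhds_iff.mp ht
  refine ⟨max 1 M, ρ, le_max_left _ _, hρ, ?_⟩
  intro p hp q hq
  have h1 := hM.norm_sub_le (hb hp) (hb hq)
  rw [Real.norm_eq_abs] at h1
  exact h1.trans (mul_le_mul_of_nonneg_right (le_max_right _ _) (norm_nonneg _))

theorem cho_sub (v : ℂ × ℂ) (a b : ℝ × ℝ) :
    ‖((v, a) : (ℂ × ℂ) × (ℝ × ℝ)) - (v, b)‖ = ‖a - b‖ := by
  rw [Prod.mk_sub_mk, sub_self, Prod.norm_mk, norm_zero]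
  exact max_eq_right (norm_nonneg _)

theorem cho_mem {v : ℂ × ℂ} {a : ℝ × ℝ} {ρ : ℝ} (h1 : ‖v‖ < ρ) (h2 : |a.1| < ρ) (h3 : |a.2| < ρ) :
    ((v, a) : (ℂ × ℂ) × (ℝ × ℝ)) ∈ ball (0 : (ℂ × ℂ) × (ℝ × ℝ)) ρ := by
  rw [mem_ball_zero_iff, Prod.norm_mk]
  refine max_lt h1 ?_
  rw [Prod.norm_def]
  exact max_lt h2 h3

theorem hCHO : StCho := by
  intro r sp sm h
  have h0r : (0 : (ℂ × ℂ) × (ℝ × ℝ)) ∈ ball (0 : (ℂ × ℂ) × (ℝ × ℝ)) r := mem_ball_self h.pos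
  have hnb : ball (0 : (ℂ × ℂ) × (ℝ × ℝ)) r ∈ nhds (0 : (ℂ × ℂ) × (ℝ × ℝ)) :=
    isOpen_ball.mem_nhds h0r
  have hsp : ContDiffAt ℝ 1 sp 0 := (h.cp.contDiffAt hnb).of_le (by norm_num)
  have hsm : ContDiffAt ℝ 1 sm 0 := (h.cm.contDiffAt hnb).of_le (by norm_num)
  have hcc : ContDiffAt ℝ 1 (cc sp) 0 := by
    have h1 : ContDiffAt ℝ 1 (fun p : (ℂ × ℂ) × (ℝ × ℝ) => ((1 + p.2.1 : ℝ) : ℂ)) 0 := by
      refine (Complex.ofRealCLM.contDiff (n := 1)).contDiffAt.comp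
        (0 : (ℂ × ℂ) × (ℝ × ℝ)) ?_
      exact contDiffAt_const.add (contDiffAt_fst.comp _ contDiffAt_snd)
    have h2 : ContDiffAt ℝ 1 (fun p : (ℂ × ℂ) × (ℝ × ℝ) => zh p.1 (sp p)) 0 := by
      have h3 : ContDiff ℝ 1 (fun p : (ℂ × ℂ) × ℝ => zh p.1 p.2) := contDiff_zh.of_le le_top
      exact h3.contDiffAt.comp (0 : (ℂ × ℂ) × (ℝ × ℝ)) (contDiffAt_fst.prodMk hsp)
    exact (Complex.reCLM.contDiff (n := 1)).contDiffAt.comp (0 : (ℂ × ℂ) × (ℝ × ℝ)) (h1.mul h2)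
  obtain ⟨L1, ρ1, hL1, hρ1, hl1⟩ := cho_lip hsp
  obtain ⟨L2, ρ2, hL2, hρ2, hl2⟩ := cho_lip hsm
  obtain ⟨L3, ρ3, hL3, hρ3, hl3⟩ := cho_lip hcc
  obtain ⟨L, hL⟩ : ∃ L, L = max L1 (max L2 L3) := ⟨_, rfl⟩
  have hLL1 : L1 ≤ L := by rw [hL]; exact le_max_left _ _
  have hLL2 : L2 ≤ L := by rw [hL]; exact (le_max_left _ _).trans (le_max_right _ _)
  have hLL3 : L3 ≤ L := by rw [hL]; exact (le_max_right _ _).trans (le_max_right _ _)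
  have hLpos : 0 < L := by linarith
  obtain ⟨ρ, hρ⟩ : ∃ ρ, ρ = min (min r 1) (min ρ1 (min ρ2 ρ3)) := ⟨_, rfl⟩
  have hρr : ρ ≤ r := by rw [hρ]; exact (min_le_left _ _).trans (min_le_left _ _)
  have hρ1' : ρ ≤ 1 := by rw [hρ]; exact (min_le_left _ _).trans (min_le_right _ _)
  have hρa : ρ ≤ ρ1 := by rw [hρ]; exact (min_le_right _ _).trans (min_le_left _ _)
  have hρb : ρ ≤ ρ2 := by
    rw [hρ]; exact (min_le_right _ _).trans ((min_le_right _ _).trans (min_le_left _ _))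
  have hρc : ρ ≤ ρ3 := by
    rw [hρ]; exact (min_le_right _ _).trans ((min_le_right _ _).trans (min_le_right _ _))
  have hρpos : 0 < ρ := by
    rw [hρ]
    exact lt_min (lt_min h.pos one_pos) (lt_min hρ1 (lt_min hρ2 hρ3))
  have k1 : ∀ p ∈ ball (0 : (ℂ × ℂ) × (ℝ × ℝ)) ρ, ∀ q ∈ ball (0 : (ℂ × ℂ) × (ℝ × ℝ)) ρ,
      |sp p - sp q| ≤ L * ‖p - q‖ := fun p hp q hq =>
    (hl1 p (ball_subset_ball hρa hp) q (ball_subset_ball hρa hq)).trans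
      (mul_le_mul_of_nonneg_right hLL1 (norm_nonneg _))
  have k2 : ∀ p ∈ ball (0 : (ℂ × ℂ) × (ℝ × ℝ)) ρ, ∀ q ∈ ball (0 : (ℂ × ℂ) × (ℝ × ℝ)) ρ,
      |sm p - sm q| ≤ L * ‖p - q‖ := fun p hp q hq =>
    (hl2 p (ball_subset_ball hρb hp) q (ball_subset_ball hρb hq)).trans
      (mul_le_mul_of_nonneg_right hLL2 (norm_nonneg _))
  have k3' : ∀ p ∈ ball (0 : (ℂ × ℂ) × (ℝ × ℝ)) ρ, ∀ q ∈ ball (0 : (ℂ × ℂ) × (ℝ × ℝ)) ρ,
      |cc sp p - cc sp q| ≤ L * ‖p - q‖ := fun p hp q hq =>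
    (hl3 p (ball_subset_ball hρc hp) q (ball_subset_ball hρc hq)).trans
      (mul_le_mul_of_nonneg_right hLL3 (norm_nonneg _))
  obtain ⟨r₁, hr₁⟩ : ∃ r₁, r₁ = min (ρ / 4) (1 / (4 * L)) := ⟨_, rfl⟩
  have hr₁pos : 0 < r₁ := by
    rw [hr₁]
    exact lt_min (by positivity) (by positivity)
  have hr₁ρ : r₁ ≤ ρ / 4 := by rw [hr₁]; exact min_le_left _ _
  have hr₁L : 4 * L * r₁ ≤ 1 := by
    have h1 : r₁ ≤ 1 / (4 * L) := by rw [hr₁]; exact min_le_right _ _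
    rw [le_div_iff₀ (by positivity)] at h1
    linarith
  refine ⟨2 * L ^ 2, r₁, by positivity, hr₁pos, by linarith, ?_⟩
  intro K x w w' η hx hη hw hB u
  have hη0 : 0 ≤ η := hw.eta_nonneg
  obtain ⟨v, hv⟩ : ∃ v, v = rot u x := ⟨_, rfl⟩
  have hvn : ‖v‖ ≤ r₁ := by rw [hv, norm_rot]; exact hx
  obtain ⟨a, ha⟩ : ∃ a, a = z0 sp sm w x u := ⟨_, rfl⟩
  obtain ⟨b, hb⟩ : ∃ b, b = z1 sp sm w x u := ⟨_, rfl⟩
  have ha1 : |a.1| ≤ η := by rw [ha]; exact hw.bdd _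
  have ha2 : |a.2| ≤ η := by rw [ha]; exact hw.bdd _
  have hb1 : b.1 = w (u + sp (v, a)) := by rw [hb, ha, hv]; rfl
  have hb2 : b.2 = w (u + sm (v, a)) := by rw [hb, ha, hv]; rfl
  have hb1' : |b.1| ≤ η := by rw [hb1]; exact hw.bdd _
  have hb2' : |b.2| ≤ η := by rw [hb2]; exact hw.bdd _
  rw [← ha, ← hb, ← hv]
  -- the distance
  obtain ⟨δ, hδ⟩ : ∃ δ, δ = η * (L * ‖a - b‖) := ⟨_, rfl⟩
  have hδ0 : 0 ≤ δ := by rw [hδ]; positivity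
  have hab : ‖a - b‖ ≤ 2 * η := by
    rw [Prod.norm_def]
    refine max_le ?_ ?_
    · change |a.1 - b.1| ≤ 2 * η
      rw [abs_le] at *
      constructor <;> linarith [ha1.1, ha1.2, hb1'.1, hb1'.2]
    · change |a.2 - b.2| ≤ 2 * η
      rw [abs_le] at *
      constructor <;> linarith [ha2.1, ha2.2, hb2'.1, hb2'.2]
  have hab2 : ‖a - b‖ ≤ |b.1 - a.1| + |b.2 - a.2| := by
    rw [Prod.norm_def]
    refine max_le ?_ ?_
    · change |a.1 - b.1| ≤ _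
      rw [abs_sub_comm]
      linarith [abs_nonneg (b.2 - a.2)]
    · change |a.2 - b.2| ≤ _
      rw [abs_sub_comm]
      linarith [abs_nonneg (b.1 - a.1)]
  have hLη : 4 * L * η ≤ 1 := (mul_le_mul_of_nonneg_left hη (by positivity)).trans hr₁L
  have h2δ : 2 * δ ≤ η := by
    rw [hδ]
    have h1 : η * (L * ‖a - b‖) ≤ η * (L * (2 * η)) := by gcongr
    have h2 : 2 * (η * (L * (2 * η))) = η * (4 * L * η) := by ring
    have h3 : η * (4 * L * η) ≤ η * 1 := mul_le_mul_of_nonneg_left hLη hη0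
    linarith
  obtain ⟨c, hc⟩ : ∃ c : ℝ × ℝ, c = (b.1 - 2 * δ, b.2 - 2 * δ) := ⟨_, rfl⟩
  have hc1 : c.1 = b.1 - 2 * δ := by rw [hc]
  have hc2 : c.2 = b.2 - 2 * δ := by rw [hc]
  have hbc : ‖b - c‖ = 2 * δ := by
    rw [Prod.norm_def]
    have e1 : (b - c).1 = 2 * δ := by rw [Prod.fst_sub, hc1]; ring
    have e2 : (b - c).2 = 2 * δ := by rw [Prod.snd_sub, hc2]; ring
    rw [e1, e2, Real.norm_eq_abs, abs_of_nonneg (by linarith), max_self]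
  have hc1' : |c.1| ≤ 2 * η := by
    rw [hc1]
    rw [abs_le] at *
    constructor <;> linarith [hb1'.1, hb1'.2]
  have hc2' : |c.2| ≤ 2 * η := by
    rw [hc2]
    rw [abs_le] at *
    constructor <;> linarith [hb2'.1, hb2'.2]
  have hρ' : r₁ < ρ := by linarith
  have ma : ((v, a) : (ℂ × ℂ) × (ℝ × ℝ)) ∈ ball (0 : (ℂ × ℂ) × (ℝ × ℝ)) ρ :=
    cho_mem (by linarith) (by linarith) (by linarith)
  have mb : ((v, b) : (ℂ × ℂ) × (ℝ × ℝ)) ∈ ball (0 : (ℂ × ℂ) × (ℝ × ℝ)) ρ :=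
    cho_mem (by linarith) (by linarith) (by linarith)
  have mc : ((v, c) : (ℂ × ℂ) × (ℝ × ℝ)) ∈ ball (0 : (ℂ × ℂ) × (ℝ × ℝ)) ρ :=
    cho_mem (by linarith) (by linarith) (by linarith)
  have hηL : η * L ≤ 1 / 4 := by linarith
  -- the values of w at the end points
  have step : ∀ f : (ℂ × ℂ) × (ℝ × ℝ) → ℝ,
      (∀ p ∈ ball (0 : (ℂ × ℂ) × (ℝ × ℝ)) ρ, ∀ q ∈ ball (0 : (ℂ × ℂ) × (ℝ × ℝ)) ρ,
        |f p - f q| ≤ L * ‖p - q‖) → w (u + f (v, a)) - 2 * δ ≤ w (u + f (v, c)) := by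
    intro f hf
    have e1 := hf _ ma _ mb
    rw [cho_sub] at e1
    have e2 := hf _ mb _ mc
    rw [cho_sub, hbc] at e2
    have e3 := hw.lip (u + f (v, a)) (u + f (v, b))
    have e4 := hw.lip (u + f (v, b)) (u + f (v, c))
    rw [add_sub_add_left_eq_sub] at e3 e4
    have e5 : |w (u + f (v, a)) - w (u + f (v, b))| ≤ δ := by
      rw [hδ]
      exact e3.trans (mul_le_mul_of_nonneg_left e1 hη0)
    have e6 : |w (u + f (v, b)) - w (u + f (v, c))| ≤ δ := by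
      refine (e4.trans (mul_le_mul_of_nonneg_left e2 hη0)).trans ?_
      have : η * (L * (2 * δ)) = (η * L) * (2 * δ) := by ring
      rw [this]
      have h5 : (η * L) * (2 * δ) ≤ 1 / 4 * (2 * δ) :=
        mul_le_mul_of_nonneg_right hηL (by linarith)
      linarith
    have e7 := (abs_le.mp e5).2
    have e8 := (abs_le.mp e6).2
    linarith
  have hw1 : c.1 ≤ w (u + sp (v, c)) := by
    rw [hc1, hb1]
    exact step sp k1
  have hw2 : c.2 ≤ w (u + sm (v, c)) := by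
    rw [hc2, hb2]
    exact step sm k2
  have hη1 : 2 * η < 1 := by linarith
  have hlt1 : -1 < c.1 := by linarith [(abs_le.mp hc1').1]
  have hlt2 : -1 < c.2 := by linarith [(abs_le.mp hc2').1]
  have hK1 := (hB (u + sp (v, c)) c.1 hlt1).mpr hw1
  have hK2 := (hB (u + sm (v, c)) c.2 hlt2).mpr hw2
  rw [zh_rot, ← hv] at hK1 hK2
  have heq := h.eqn (v, c) (ball_subset_ball hρr mc)
  unfold ChEq at heq
  simp only at heq
  obtain ⟨P, hP⟩ : ∃ P : ℂ, P = ((1 + c.1 : ℝ) : ℂ) * zh v (sp (v, c)) := ⟨_, rfl⟩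
  obtain ⟨Q, hQ⟩ : ∃ Q : ℂ, Q = ((1 + c.2 : ℝ) : ℂ) * zh v (sm (v, c)) := ⟨_, rfl⟩
  rw [← hP, ← hQ] at heq
  have hPre : P.re = cc sp (v, c) := by rw [hP]; rfl
  have hre : Q.re = P.re := by
    have h1 := congrArg Complex.re heq
    simp at h1
    linarith
  have him : P.im = Q.im + Real.sqrt 3 := by
    have h1 := congrArg Complex.im heq
    simp at h1
    linarith
  refine ⟨cc sp (v, c), ⟨Q.im, ?_, ?_⟩, ?_⟩
  · have e : ee u * (((cc sp (v, c) : ℝ) : ℂ) + (Q.im : ℂ) * Complex.I) =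
        ((1 + c.2 : ℝ) : ℂ) * (ee u * zh v (sm (v, c))) := by
      have e1 : (((cc sp (v, c) : ℝ) : ℂ) + (Q.im : ℂ) * Complex.I) = Q := by
        rw [← hPre, ← hre, Complex.re_add_im]
      rw [e1, hQ]
      ring
    rw [e]
    exact hK2
  · have e : ee u * (((cc sp (v, c) : ℝ) : ℂ) + ((Q.im + Real.sqrt 3 : ℝ) : ℂ) * Complex.I) =
        ((1 + c.1 : ℝ) : ℂ) * (ee u * zh v (sp (v, c))) := by
      have e1 : (((cc sp (v, c) : ℝ) : ℂ) + ((Q.im + Real.sqrt 3 : ℝ) : ℂ) * Complex.I) = P := by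
        rw [← hPre, ← him, Complex.re_add_im]
      rw [e1, hP]
      ring
    rw [e]
    exact hK1
  · have e1 := k3' _ mb _ mc
    rw [cho_sub, hbc] at e1
    have e2 := (abs_le.mp e1).2
    have e3 : L * (2 * δ) ≤ 2 * L ^ 2 * (η * (|b.1 - a.1| + |b.2 - a.2|)) := by
      have e4 : L * (2 * δ) = 2 * L ^ 2 * (η * ‖a - b‖) := by
        rw [hδ]
        ring
      rw [e4]
      gcongr
    linarith

end Pool.Agent.Helper89.LT
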